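import Mathlib

/-!
# Coprime action on abelian normal subgroups and a splitting theorem
-/

set_option autoImplicit false
set_option linter.unusedSectionVars false

namespace Pool.Agent.Q7.NR

open Subgroup
open scoped commutatorElement

variable {X : Type} [Group X] [Finite X]

/-- coprime action on an abelian normal subgroup -/
theorem coprime_decomp (B R : Subgroup X) [hB : B.Normal] (hBc : ∀ a ∈ B, ∀ b ∈ B, a * b = b * a)
    (hcop : (Nat.card B).Coprime (Nat.card R)) :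
    (∀ a ∈ B, ∃ m ∈ ⁅B, R⁆, ∃ c ∈ B, (∀ r ∈ R, r * c = c * r) ∧ a = m * c) ∧
    (∀ c ∈ ⁅B, R⁆, (∀ r ∈ R, r * c = c * r) → c = 1) := by
  classical
  let _ : CommGroup B :=
    { (inferInstance : Group B) with mul_comm := fun a b => Subtype.ext (hBc a a.2 b b.2) }
  have : Fintype R := Fintype.ofFinite R
  let ν : B →* B :=
    { toFun := fun a => ∏ r : R, MulAut.conjNormal (r : X) a
      map_one' := by simp
      map_mul' := by
        intro a b
        simp only [map_mul, Finset.prod_mul_distrib] }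
  have hν : ∀ a : B, ν a = ∏ r : R, MulAut.conjNormal (r : X) a := fun a => rfl
  have h1 : ∀ (a : B) (s : R), ν (MulAut.conjNormal (s : X) a) = ν a := by
    intro a s
    rw [hν, hν]
    refine Eq.trans (Finset.prod_congr rfl fun r _ => ?_)
      (Equiv.prod_comp (Equiv.mulRight s) (fun r : R => MulAut.conjNormal (r : X) a))
    rw [Equiv.coe_mulRight, Subgroup.coe_mul, map_mul, MulAut.mul_apply]
  have h2 : ∀ (a : B) (s : R), MulAut.conjNormal (s : X) (ν a) = ν a := by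
    intro a s
    rw [hν, map_prod]
    refine Eq.trans (Finset.prod_congr rfl fun r _ => ?_)
      (Equiv.prod_comp (Equiv.mulLeft s) (fun r : R => MulAut.conjNormal (r : X) a))
    rw [Equiv.coe_mulLeft, Subgroup.coe_mul, map_mul, MulAut.mul_apply]
  have h3 : ⁅B, R⁆ ≤ ν.ker.map B.subtype := by
    rw [Subgroup.commutator_le]
    intro a ha r hr
    refine ⟨⟨a, ha⟩ * MulAut.conjNormal r (⟨a, ha⟩⁻¹ : B), ?_, ?_⟩
    · change ν (⟨a, ha⟩ * MulAut.conjNormal r (⟨a, ha⟩⁻¹ : B)) = 1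
      rw [map_mul, h1 (⟨a, ha⟩⁻¹ : B) ⟨r, hr⟩, map_inv, mul_inv_cancel]
    · rw [commutatorElement_def]
      simp [MulAut.conjNormal_apply, mul_assoc]
  constructor
  · intro a ha
    obtain ⟨b, hb⟩ := (powCoprime hcop).surjective (⟨a, ha⟩ : B)
    have hb' : b ^ Nat.card R = ⟨a, ha⟩ := hb
    have h4 : b ^ Nat.card R = (∏ r : R, b * (MulAut.conjNormal (r : X) b)⁻¹) * ν b := by
      rw [Finset.prod_mul_distrib, Finset.prod_const, Finset.card_univ, Finset.prod_inv_distrib,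
        hν, Nat.card_eq_fintype_card]
      group
    refine ⟨((∏ r : R, b * (MulAut.conjNormal (r : X) b)⁻¹ : B) : X), ?_, (ν b : X), (ν b).2, ?_, ?_⟩
    · have h5 : (∏ r : R, b * (MulAut.conjNormal (r : X) b)⁻¹ : B) ∈ (⁅B, R⁆).subgroupOf B := by
        refine Subgroup.prod_mem _ fun r _ => ?_
        rw [Subgroup.mem_subgroupOf]
        have h6 : ((b * (MulAut.conjNormal (r : X) b)⁻¹ : B) : X) = ⁅(b : X), (r : X)⁆ := by
          rw [commutatorElement_def]
          simp [MulAut.conjNormal_apply, mul_assoc]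
        rw [h6]
        exact Subgroup.commutator_mem_commutator b.2 r.2
      exact Subgroup.mem_subgroupOf.mp h5
    · intro r hr
      have h5 := congrArg Subtype.val (h2 b ⟨r, hr⟩)
      rw [MulAut.conjNormal_apply] at h5
      exact mul_inv_eq_iff_eq_mul.mp h5
    · rw [← Subgroup.coe_mul, ← h4, hb']
  · intro c hc hcr
    obtain ⟨c', hc1, hc2⟩ := h3 hc
    have h4 : ν c' = 1 := hc1
    have h5 : ∀ r : R, MulAut.conjNormal (r : X) c' = c' := by
      intro r
      apply Subtype.ext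
      rw [MulAut.conjNormal_apply]
      have h6 := hcr r r.2
      have hc2' : (c' : X) = c := hc2
      rw [hc2', h6]
      group
    rw [hν, Finset.prod_congr rfl (fun r _ => h5 r), Finset.prod_const, Finset.card_univ,
      ← Nat.card_eq_fintype_card] at h4
    have h6 : orderOf c' ∣ 1 := by
      rw [← Nat.Coprime.gcd_eq_one hcop]
      exact Nat.dvd_gcd (orderOf_dvd_natCard c') (orderOf_dvd_of_pow_eq_one h4)
    have h7 : c' = 1 := orderOf_eq_one_iff.mp (Nat.dvd_one.mp h6)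
    rw [← hc2, h7]
    rfl

/-- the Frattini argument: a complement of `⁅B, T⁆` -/
theorem split_step (A T B : Subgroup X) [hAn : A.Normal] [hTn : T.Normal] [hBn : B.Normal]
    (hA : ∀ a ∈ A, ∀ b ∈ A, a * b = b * a) (hAT : A ≤ T) {q : ℕ} [hq : Fact q.Prime]
    (hT : ∀ t ∈ T, ∃ k : ℕ, t ^ q ^ k ∈ A) (hBA : B ≤ A) (hBq : q.Coprime (Nat.card B))
    (hdec : ∀ a ∈ A, ∃ b ∈ B, ∃ d ∈ A, (∃ k : ℕ, d ^ q ^ k = 1) ∧ a = b * d) :
    ∃ H : Subgroup X, ⁅B, T⁆ ⊓ H = ⊥ ∧ ⁅B, T⁆ ⊔ H = ⊤ := by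
  classical
  let P : Sylow q T := default
  let R : Subgroup X := (P : Subgroup T).map T.subtype
  have hRT : R ≤ T := by
    rintro _ ⟨x, -, rfl⟩
    exact x.2
  have hRp : IsPGroup q R := P.isPGroup'.map _
  obtain ⟨e, he⟩ := (IsPGroup.iff_card).mp hRp
  have hcop : (Nat.card B).Coprime (Nat.card R) := by
    rw [he]
    exact Nat.Coprime.pow_right _ hBq.symm
  -- `T = A R`
  have h2 : (A.subgroupOf T) ⊔ (P : Subgroup T) = ⊤ := by
    rw [← Subgroup.index_eq_one]
    by_contra hne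
    obtain ⟨l, hl, hd⟩ := Nat.exists_prime_and_dvd hne
    have h3 : IsPGroup q (T ⧸ A.subgroupOf T) := by
      intro x
      induction x using QuotientGroup.induction_on with
      | H t =>
        obtain ⟨k, hk⟩ := hT t t.2
        refine ⟨k, ?_⟩
        rw [← QuotientGroup.mk_pow, QuotientGroup.eq_one_iff, Subgroup.mem_subgroupOf]
        exact hk
    obtain ⟨n, hn⟩ := (IsPGroup.iff_card).mp h3
    have h4 : l ∣ q ^ n := by
      rw [← hn]
      exact hd.trans (Subgroup.index_dvd_of_le le_sup_left)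
    have h5 : l = q := (Nat.prime_dvd_prime_iff_eq hl hq.out).mp (hl.dvd_of_dvd_pow h4)
    subst h5
    exact P.not_dvd_index (hd.trans (Subgroup.index_dvd_of_le le_sup_right))
  have h2' : ∀ t ∈ T, ∃ a ∈ A, ∃ r ∈ R, t = a * r := by
    intro t ht
    have h3 : (⟨t, ht⟩ : T) ∈ (A.subgroupOf T) ⊔ (P : Subgroup T) := by
      rw [h2]; exact Subgroup.mem_top _
    have : (A.subgroupOf T).Normal := inferInstance
    obtain ⟨a, ha, r, hr, h4⟩ := Subgroup.mem_sup_of_normal_left.mp h3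
    exact ⟨a, ha, r, ⟨r, hr, rfl⟩, (congrArg Subtype.val h4).symm⟩
  -- the `q`-part of `A` is contained in `R`
  let D : Subgroup T :=
    { carrier := {d | (d : X) ∈ A ∧ ∃ k : ℕ, (d : X) ^ q ^ k = 1}
      mul_mem' := by
        rintro a b ⟨ha, k, hk⟩ ⟨hb, l, hl⟩
        refine ⟨A.mul_mem ha hb, k + l, ?_⟩
        rw [Subgroup.coe_mul, (show Commute (a : X) b from hA a ha b hb).mul_pow, pow_add, pow_mul,
          hk, mul_comm (q ^ k), pow_mul, hl, one_pow, one_pow, one_mul]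
      one_mem' := ⟨A.one_mem, 0, by simp⟩
      inv_mem' := by
        rintro a ⟨ha, k, hk⟩
        refine ⟨A.inv_mem ha, k, ?_⟩
        rw [Subgroup.coe_inv, inv_pow, hk, inv_one] }
  have hDn : D.Normal := by
    refine ⟨?_⟩
    rintro d ⟨hd, k, hk⟩ g
    refine ⟨hAn.conj_mem _ hd _, k, ?_⟩
    have : ((g * d * g⁻¹ : T) : X) ^ q ^ k = g * (d : X) ^ q ^ k * (g : X)⁻¹ := by
      rw [Subgroup.coe_mul, Subgroup.coe_mul, Subgroup.coe_inv, conj_pow]
    rw [this, hk]
    group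
  have hDp : IsPGroup q D := by
    rintro ⟨d, hd, k, hk⟩
    exact ⟨k, Subtype.ext (Subtype.ext hk)⟩
  have hDP : D ≤ P := by
    have h3 : IsPGroup q (D ⊔ (P : Subgroup T) : Subgroup T) :=
      hDp.to_sup_of_normal_left P.isPGroup'
    have h4 := P.is_maximal' h3 le_sup_right
    rw [← h4]
    exact le_sup_left
  have hDR : ∀ d ∈ A, (∃ k : ℕ, d ^ q ^ k = 1) → d ∈ R := by
    intro d hd hk
    exact ⟨⟨d, hAT hd⟩, hDP ⟨hd, hk⟩, rfl⟩
  -- commutators
  have hBc : ∀ a ∈ B, ∀ b ∈ B, a * b = b * a := fun a ha b hb => hA a (hBA ha) b (hBA hb)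
  have hle : ⁅B, T⁆ ≤ ⁅B, R⁆ := by
    rw [Subgroup.commutator_le]
    intro b hb t ht
    obtain ⟨a, ha, r, hr, rfl⟩ := h2' t ht
    have h3 : ⁅b, a * r⁆ = ⁅b, r⁆ := by
      rw [commutatorElement_def, commutatorElement_def]
      have h4 : b * a = a * b := hA b (hBA hb) a ha
      have h5 : r * b⁻¹ * r⁻¹ ∈ B := hBn.conj_mem _ (B.inv_mem hb) _
      have h6 : (b * (r * b⁻¹ * r⁻¹)) * a⁻¹ = a⁻¹ * (b * (r * b⁻¹ * r⁻¹)) :=
        hA _ (hBA (B.mul_mem hb h5)) _ (A.inv_mem ha)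
      calc b * (a * r) * b⁻¹ * (a * r)⁻¹ = (b * a) * r * b⁻¹ * r⁻¹ * a⁻¹ := by group
        _ = a * ((b * (r * b⁻¹ * r⁻¹)) * a⁻¹) := by rw [h4]; group
        _ = b * r * b⁻¹ * r⁻¹ := by rw [h6]; group
    rw [h3]
    exact Subgroup.commutator_mem_commutator hb hr
  obtain ⟨h7, h8⟩ := coprime_decomp B R hBc hcop
  have hRH : R ≤ normalizer (R : Set X) := Subgroup.le_normalizer
  have hBR : B ⊓ R = ⊥ := (Subgroup.disjoint_of_coprime_natCard hcop).eq_bot
  refine ⟨normalizer (R : Set X), ?_, ?_⟩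
  · rw [eq_bot_iff]
    rintro m ⟨hm1, hm2⟩
    have hmB : m ∈ B := Subgroup.commutator_le_left B T hm1
    rw [Subgroup.mem_bot]
    apply h8 m (hle hm1)
    intro r hr
    have h9 : m * r * m⁻¹ ∈ R := (Subgroup.mem_normalizer_iff.mp hm2 r).mp hr
    have h10 : m * r * m⁻¹ * r⁻¹ ∈ B ⊓ R := by
      refine ⟨?_, R.mul_mem h9 (R.inv_mem hr)⟩
      have h11 : m * r * m⁻¹ * r⁻¹ = m * (r * m⁻¹ * r⁻¹) := by group
      rw [h11]
      exact B.mul_mem hmB (hBn.conj_mem _ (B.inv_mem hmB) _)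
    rw [hBR, Subgroup.mem_bot] at h10
    have h12 : m * r * m⁻¹ = r := mul_inv_eq_one.mp h10
    exact (mul_inv_eq_iff_eq_mul.mp h12).symm
  · have h9 : normalizer (R : Set X) ⊔ T = ⊤ := Sylow.normalizer_sup_eq_top P
    rw [eq_top_iff, ← h9]
    refine sup_le le_sup_right ?_
    intro t ht
    obtain ⟨a, ha, r, hr, rfl⟩ := h2' t ht
    refine Subgroup.mul_mem _ ?_ ((le_sup_right : _ ≤ ⁅B, T⁆ ⊔ normalizer (R : Set X)) (hRH hr))
    obtain ⟨b, hb, d, hd, hk, rfl⟩ := hdec a ha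
    refine Subgroup.mul_mem _ ?_
      ((le_sup_right : _ ≤ ⁅B, T⁆ ⊔ normalizer (R : Set X)) (hRH (hDR d hd hk)))
    obtain ⟨m, hm, c, hc, hcr, rfl⟩ := h7 b hb
    refine Subgroup.mul_mem _ ((le_sup_left : _ ≤ ⁅B, T⁆ ⊔ normalizer (R : Set X))
      (Subgroup.commutator_mono le_rfl hRT hm)) ?_
    apply (le_sup_right : _ ≤ ⁅B, T⁆ ⊔ normalizer (R : Set X))
    rw [Subgroup.mem_normalizer_iff]
    intro h
    constructor
    · intro hh
      have h10 : c * h * c⁻¹ = h := by rw [← hcr h hh]; group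
      change c * h * c⁻¹ ∈ R
      rw [h10]
      exact hh
    · intro hh
      have hh' : c * h * c⁻¹ ∈ R := hh
      have h10 := hcr _ hh'
      have h11 : h = c * h * c⁻¹ := by
        have h12 : c * h * c⁻¹ * c = c * (c * h * c⁻¹) := h10
        have h13 : c * h = c * (c * h * c⁻¹) := by
          rw [← h12]; group
        exact mul_left_cancel h13
      change h ∈ R
      rw [h11]
      exact hh'

end Pool.Agent.Q7.NR
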