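import Mathlib
import Pool.Agent.Q7.NR.Cop

/-!
# Complemented normal subgroups inside an abelian nilpotent residual
-/

set_option autoImplicit false
set_option linter.unusedSectionVars false

namespace Pool.Agent.Q7.NR

open Subgroup
open scoped commutatorElement

/-- `S / A` is nilpotent (in finite groups): for every prime `l` the elements of `S` whose order
modulo `A` is a power of `l` are closed under multiplication. -/
def PN {X : Type} [Group X] (S A : Subgroup X) : Prop :=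
  ∀ l : ℕ, l.Prime → ∀ s ∈ S, ∀ t ∈ S, (∃ k : ℕ, s ^ l ^ k ∈ A) → (∃ k : ℕ, t ^ l ^ k ∈ A) →
    ∃ k : ℕ, (s * t) ^ l ^ k ∈ A

variable {X : Type} [Group X] [Finite X]

/-- the elements of `S` whose order modulo `A` is a power of `q` -/
def tq (S A : Subgroup X) (hPN : PN S A) (q : ℕ) (hq : q.Prime) : Subgroup X where
  carrier := {s | s ∈ S ∧ ∃ k : ℕ, s ^ q ^ k ∈ A}
  mul_mem' := by
    rintro a b ⟨ha, h1⟩ ⟨hb, h2⟩
    exact ⟨S.mul_mem ha hb, hPN q hq a ha b hb h1 h2⟩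
  one_mem' := ⟨S.one_mem, 0, by simp⟩
  inv_mem' := by
    rintro a ⟨ha, k, hk⟩
    refine ⟨S.inv_mem ha, k, ?_⟩
    rw [inv_pow]
    exact A.inv_mem hk

lemma mem_tq {S A : Subgroup X} {hPN : PN S A} {q : ℕ} {hq : q.Prime} {x : X} :
    x ∈ tq S A hPN q hq ↔ x ∈ S ∧ ∃ k : ℕ, x ^ q ^ k ∈ A := Iff.rfl

lemma tq_normal {S A : Subgroup X} [hS : S.Normal] [hA : A.Normal] {hPN : PN S A} {q : ℕ}
    {hq : q.Prime} : (tq S A hPN q hq).Normal := by
  refine ⟨?_⟩
  rintro s ⟨hs, k, hk⟩ g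
  refine ⟨hS.conj_mem _ hs _, k, ?_⟩
  rw [conj_pow]
  exact hA.conj_mem _ hk _

/-- the part of `A` of order prime to `q` -/
def pr (A : Subgroup X) (hA : ∀ a ∈ A, ∀ b ∈ A, a * b = b * a) (q : ℕ) : Subgroup X where
  carrier := {a | a ∈ A ∧ ∃ n : ℕ, q.Coprime n ∧ a ^ n = 1}
  mul_mem' := by
    rintro a b ⟨ha, n, hn, h1⟩ ⟨hb, m, hm, h2⟩
    refine ⟨A.mul_mem ha hb, n * m, hn.mul_right hm, ?_⟩
    rw [(show Commute a b from hA a ha b hb).mul_pow, pow_mul, h1, one_pow, mul_comm n m, pow_mul,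
      h2, one_pow, mul_one]
  one_mem' := ⟨A.one_mem, 1, Nat.coprime_one_right q, one_pow _⟩
  inv_mem' := by
    rintro a ⟨ha, n, hn, h1⟩
    exact ⟨A.inv_mem ha, n, hn, by rw [inv_pow, h1, inv_one]⟩

lemma mem_pr {A : Subgroup X} {hA : ∀ a ∈ A, ∀ b ∈ A, a * b = b * a} {q : ℕ} {x : X} :
    x ∈ pr A hA q ↔ x ∈ A ∧ ∃ n : ℕ, q.Coprime n ∧ x ^ n = 1 := Iff.rfl

lemma pr_normal {A : Subgroup X} [hAn : A.Normal] {hA : ∀ a ∈ A, ∀ b ∈ A, a * b = b * a} {q : ℕ} :
    (pr A hA q).Normal := by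
  refine ⟨?_⟩
  rintro s ⟨hs, n, hn, h1⟩ g
  refine ⟨hAn.conj_mem _ hs _, n, hn, ?_⟩
  rw [conj_pow, h1]
  group

lemma pr_coprime {A : Subgroup X} {hA : ∀ a ∈ A, ∀ b ∈ A, a * b = b * a} {q : ℕ} (hq : q.Prime) :
    q.Coprime (Nat.card (pr A hA q)) := by
  rw [Nat.Prime.coprime_iff_not_dvd hq]
  intro hd
  have := Fact.mk hq
  obtain ⟨x, hx⟩ := exists_prime_orderOf_dvd_card' (G := pr A hA q) q hd
  obtain ⟨-, n, hn, h1⟩ := x.2
  have h2 : x ^ n = 1 := Subtype.ext h1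
  have h3 := orderOf_dvd_of_pow_eq_one h2
  rw [hx] at h3
  exact (Nat.Prime.coprime_iff_not_dvd hq).mp hn h3

lemma pr_decomp {A : Subgroup X} {hA : ∀ a ∈ A, ∀ b ∈ A, a * b = b * a} {q : ℕ} (hq : q.Prime)
    {a : X} (ha : a ∈ A) :
    ∃ b ∈ pr A hA q, ∃ d ∈ A, (∃ k : ℕ, d ^ q ^ k = 1) ∧ a = b * d := by
  obtain ⟨k, m, hm, hk⟩ := Nat.exists_eq_pow_mul_and_not_dvd (orderOf_pos a).ne' q hq.ne_one
  have hcop : q.Coprime m := (Nat.Prime.coprime_iff_not_dvd hq).mpr hm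
  have hcop' : (q ^ k).Coprime m := hcop.pow_left k
  have h1 : (q ^ k : ℤ) * Nat.gcdA (q ^ k) m + m * Nat.gcdB (q ^ k) m = 1 := by
    have := Nat.gcd_eq_gcd_ab (q ^ k) m
    rw [Nat.Coprime.gcd_eq_one hcop'] at this
    push_cast at this
    exact this.symm
  have h0 : a ^ (q ^ k * m) = 1 := by rw [← hk]; exact pow_orderOf_eq_one a
  refine ⟨a ^ ((q ^ k : ℤ) * Nat.gcdA (q ^ k) m), ⟨A.zpow_mem ha _, m, hcop, ?_⟩,
    a ^ ((m : ℤ) * Nat.gcdB (q ^ k) m), A.zpow_mem ha _, ⟨k, ?_⟩, ?_⟩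
  · rw [← zpow_natCast, ← zpow_mul]
    have : (q ^ k : ℤ) * Nat.gcdA (q ^ k) m * m = ((q ^ k * m : ℕ) : ℤ) * Nat.gcdA (q ^ k) m := by
      push_cast; ring
    rw [this, zpow_mul, zpow_natCast, h0, one_zpow]
  · rw [← zpow_natCast, ← zpow_mul]
    have : (m : ℤ) * Nat.gcdB (q ^ k) m * ((q ^ k : ℕ) : ℤ)
        = ((q ^ k * m : ℕ) : ℤ) * Nat.gcdB (q ^ k) m := by
      push_cast; ring
    rw [this, zpow_mul, zpow_natCast, h0, one_zpow]
  · rw [← zpow_add, h1, zpow_one]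

/-- a subgroup of a finite `p`-group which is its own commutator with the whole group is trivial -/
lemma eq_bot_of_perfect {Y : Type} [Group Y] [Finite Y] {p : ℕ} [Fact p.Prime] (hY : IsPGroup p Y)
    (D : Subgroup Y) (h : D ≤ ⁅D, (⊤ : Subgroup Y)⁆) : D = ⊥ := by
  have hn : Group.IsNilpotent Y := hY.isNilpotent
  obtain ⟨n, hn⟩ := Subgroup.nilpotent_iff_lowerCentralSeries.mp hn
  have h1 : ∀ m, D ≤ (⊤ : Subgroup Y).lowerCentralSeries m := by
    intro m
    induction m with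
    | zero => simp
    | succ m ih =>
      rw [Subgroup.lowerCentralSeries_succ]
      exact h.trans (Subgroup.commutator_mono ih le_rfl)
  rw [eq_bot_iff, ← hn]
  exact h1 n

theorem exists_prime (A S : Subgroup X) [hAn : A.Normal] [hSn : S.Normal]
    (hA : ∀ a ∈ A, ∀ b ∈ A, a * b = b * a) (hAS : A ≤ S) (hperf : A ≤ ⁅A, S⁆) (hPN : PN S A)
    (hne : A ≠ ⊥) :
    ∃ (q : ℕ) (hq : q.Prime), ⁅pr A hA q, tq S A hPN q hq⁆ ≠ ⊥ := by
  classical
  by_contra hcon
  push Not at hcon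
  -- a prime dividing the order of `A`
  have hcard : Nat.card A ≠ 1 := fun h => hne (Subgroup.card_eq_one.mp h)
  obtain ⟨p, hp, hpA⟩ := Nat.exists_prime_and_dvd hcard
  have := Fact.mk hp
  let D : Subgroup X :=
    { carrier := {d | d ∈ A ∧ ∃ k : ℕ, d ^ p ^ k = 1}
      mul_mem' := by
        rintro a b ⟨ha, k, hk⟩ ⟨hb, l, hl⟩
        refine ⟨A.mul_mem ha hb, k + l, ?_⟩
        rw [(show Commute a b from hA a ha b hb).mul_pow, pow_add, pow_mul,
          hk, mul_comm (p ^ k), pow_mul, hl, one_pow, one_pow, one_mul]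
      one_mem' := ⟨A.one_mem, 0, by simp⟩
      inv_mem' := by
        rintro a ⟨ha, k, hk⟩
        refine ⟨A.inv_mem ha, k, ?_⟩
        rw [inv_pow, hk, inv_one] }
  have hDA : D ≤ A := fun d hd => hd.1
  have hDn : D.Normal := by
    refine ⟨?_⟩
    rintro d ⟨hd, k, hk⟩ g
    refine ⟨hAn.conj_mem _ hd _, k, ?_⟩
    rw [conj_pow, hk]
    group
  have hDne : D ≠ ⊥ := by
    obtain ⟨x, hx⟩ := exists_prime_orderOf_dvd_card' (G := A) p hpA
    intro h
    have h1 : (x : X) ∈ D := by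
      refine ⟨x.2, 1, ?_⟩
      have h2 : x ^ p = 1 := by rw [← hx]; exact pow_orderOf_eq_one x
      rw [pow_one]
      exact congrArg Subtype.val h2
    rw [h, Subgroup.mem_bot] at h1
    have h2 : x = 1 := Subtype.ext h1
    rw [h2, orderOf_one] at hx
    exact hp.ne_one hx.symm
  -- the centraliser of `D` in `S`
  let C : Subgroup X := S ⊓ Subgroup.centralizer (D : Set X)
  have hCn : C.Normal := inferInstance
  have hC : ∀ c ∈ C, ∀ d ∈ D, d * c = c * d := by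
    intro c hc d hd
    exact Subgroup.mem_centralizer_iff.mp hc.2 d hd
  have hDpr : ∀ l : ℕ, l.Prime → l ≠ p → D ≤ pr A hA l := by
    rintro l hl hne d ⟨hd, k, hk⟩
    exact ⟨hd, p ^ k, Nat.Coprime.pow_right _ ((Nat.coprime_primes hl hp).mpr hne), hk⟩
  have hTC : ∀ (l : ℕ) (hl : l.Prime), l ≠ p → tq S A hPN l hl ≤ C := by
    intro l hl hlp s hs
    refine ⟨hs.1, Subgroup.mem_centralizer_iff.mpr ?_⟩
    intro d hd
    have h1 : ⁅d, s⁆ ∈ ⁅pr A hA l, tq S A hPN l hl⁆ :=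
      Subgroup.commutator_mem_commutator (hDpr l hl hlp hd) hs
    rw [hcon l hl, Subgroup.mem_bot, commutatorElement_eq_one_iff_mul_comm] at h1
    exact h1
  let P : Sylow p S := default
  let Q : Subgroup X := (P : Subgroup S).map S.subtype
  have hsup : C.subgroupOf S ⊔ (P : Subgroup S) = ⊤ := by
    rw [← Subgroup.index_eq_one]
    by_contra hne'
    obtain ⟨l, hl, hd⟩ := Nat.exists_prime_and_dvd hne'
    by_cases hlp : l = p
    · subst hlp
      exact P.not_dvd_index (hd.trans (Subgroup.index_dvd_of_le le_sup_right))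
    · have := Fact.mk hl
      let P' : Sylow l S := default
      have h1 : (P' : Subgroup S) ≤ C.subgroupOf S := by
        intro s hs
        rw [Subgroup.mem_subgroupOf]
        apply hTC l hl hlp
        refine ⟨s.2, ?_⟩
        obtain ⟨k, hk⟩ := P'.isPGroup' ⟨s, hs⟩
        refine ⟨k, ?_⟩
        have h2 : (s : X) ^ l ^ k = 1 := by
          have := congrArg (fun x : (P' : Subgroup S) => ((x : S) : X)) hk
          simpa using this
        rw [h2]
        exact A.one_mem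
      exact P'.not_dvd_index (hd.trans (Subgroup.index_dvd_of_le (h1.trans le_sup_left)))
  have hsup' : ∀ s ∈ S, ∃ c ∈ C, ∃ r ∈ Q, s = c * r := by
    intro s hs
    have h3 : (⟨s, hs⟩ : S) ∈ (C.subgroupOf S) ⊔ (P : Subgroup S) := by
      rw [hsup]; exact Subgroup.mem_top _
    have : (C.subgroupOf S).Normal := inferInstance
    obtain ⟨a, ha, r, hr, h4⟩ := Subgroup.mem_sup_of_normal_left.mp h3
    exact ⟨a, ha, r, ⟨r, hr, rfl⟩, (congrArg Subtype.val h4).symm⟩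
  -- `D = [D, S]`
  obtain ⟨k, m, hm, hk⟩ := Nat.exists_eq_pow_mul_and_not_dvd (Nat.card_pos (α := A)).ne' p hp.ne_one
  have hcop' : (p ^ k).Coprime m := ((Nat.Prime.coprime_iff_not_dvd hp).mpr hm).pow_left k
  obtain ⟨e, he1, he2⟩ := Nat.chineseRemainder hcop' 1 0
  have hpow : ∀ a ∈ A, a ^ (p ^ k * m) = 1 := by
    intro a ha
    have h1 : (⟨a, ha⟩ : A) ^ Nat.card A = 1 := pow_card_eq_one'
    rw [hk] at h1
    exact congrArg Subtype.val h1
  have heD : ∀ a ∈ A, a ^ e ∈ D := by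
    intro a ha
    refine ⟨A.pow_mem ha _, k, ?_⟩
    obtain ⟨f, hf⟩ := (Nat.modEq_zero_iff_dvd).mp he2
    rw [← pow_mul, hf, mul_assoc, mul_comm m, mul_comm f, mul_assoc, mul_comm f, ← mul_assoc,
      pow_mul, hpow a ha, one_pow]
  have hDe : ∀ d ∈ D, d ^ e = d := by
    rintro d ⟨hd, j, hj⟩
    have h1 : orderOf d ∣ p ^ k := by
      have h2 : orderOf d ∣ p ^ k * m := orderOf_dvd_of_pow_eq_one (hpow d hd)
      have h3 : orderOf d ∣ p ^ j := orderOf_dvd_of_pow_eq_one hj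
      have h4 : (orderOf d).Coprime m :=
        Nat.Coprime.coprime_dvd_left h3 (((Nat.Prime.coprime_iff_not_dvd hp).mpr hm).pow_left j)
      exact h4.dvd_of_dvd_mul_right h2
    have h2 : e ≡ 1 [MOD orderOf d] := he1.of_dvd h1
    have h3 := pow_eq_pow_iff_modEq.mpr h2
    rw [h3, pow_one]
  have hDS : D ≤ ⁅D, S⁆ := by
    let K : Subgroup X :=
      { carrier := {x | x ∈ A ∧ x ^ e ∈ ⁅D, S⁆}
        mul_mem' := by
          rintro a b ⟨ha, h1⟩ ⟨hb, h2⟩
          refine ⟨A.mul_mem ha hb, ?_⟩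
          rw [(show Commute a b from hA a ha b hb).mul_pow]
          exact Subgroup.mul_mem _ h1 h2
        one_mem' := ⟨A.one_mem, by rw [one_pow]; exact Subgroup.one_mem _⟩
        inv_mem' := by
          rintro a ⟨ha, h1⟩
          refine ⟨A.inv_mem ha, ?_⟩
          rw [inv_pow]
          exact Subgroup.inv_mem _ h1 }
    have h1 : ⁅A, S⁆ ≤ K := by
      rw [Subgroup.commutator_le]
      intro a ha s hs
      have h2 : s * a⁻¹ * s⁻¹ ∈ A := hAn.conj_mem _ (A.inv_mem ha) _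
      have h3 : ⁅a, s⁆ = a * (s * a⁻¹ * s⁻¹) := by rw [commutatorElement_def]; group
      refine ⟨by rw [h3]; exact A.mul_mem ha h2, ?_⟩
      have h4 : ⁅a, s⁆ ^ e = ⁅a ^ e, s⁆ := by
        rw [h3, (show Commute a _ from hA a ha _ h2).mul_pow, conj_pow, inv_pow,
          commutatorElement_def]
        group
      rw [h4]
      exact Subgroup.commutator_mem_commutator (heD a ha) hs
    intro d hd
    have h2 := h1 (hperf (hDA hd))
    have h3 := h2.2
    rwa [hDe d hd] at h3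
  have hDQ' : D ≤ ⁅D, Q⁆ := by
    refine hDS.trans ?_
    rw [Subgroup.commutator_le]
    intro d hd s hs
    obtain ⟨c, hc, r, hr, rfl⟩ := hsup' s hs
    have h1 : r * d⁻¹ * r⁻¹ ∈ D := hDn.conj_mem _ (D.inv_mem hd) _
    have h2 : ⁅d, c * r⁆ = ⁅d, r⁆ := by
      rw [commutatorElement_def, commutatorElement_def]
      have h3 := hC c hc _ h1
      calc d * (c * r) * d⁻¹ * (c * r)⁻¹ = d * (c * (r * d⁻¹ * r⁻¹)) * c⁻¹ := by group
        _ = d * r * d⁻¹ * r⁻¹ := by rw [← h3]; group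
    rw [h2]
    exact Subgroup.commutator_mem_commutator hd hr
  -- `D ≤ Q`
  have hDQ : D ≤ Q := by
    have hDp : IsPGroup p (D.subgroupOf S) := by
      rintro ⟨d, hd⟩
      obtain ⟨-, j, hj⟩ := Subgroup.mem_subgroupOf.mp hd
      exact ⟨j, Subtype.ext (Subtype.ext hj)⟩
    have : (D.subgroupOf S).Normal := inferInstance
    have h3 : IsPGroup p (D.subgroupOf S ⊔ (P : Subgroup S) : Subgroup S) :=
      hDp.to_sup_of_normal_left P.isPGroup'
    have h4 := P.is_maximal' h3 le_sup_right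
    intro d hd
    have h5 : (⟨d, hAS (hDA hd)⟩ : S) ∈ (P : Subgroup S) := by
      rw [← h4]
      exact (le_sup_left : _ ≤ D.subgroupOf S ⊔ (P : Subgroup S)) (Subgroup.mem_subgroupOf.mpr hd)
    exact ⟨_, h5, rfl⟩
  have hQp : IsPGroup p Q := P.isPGroup'.map _
  have h6 := eq_bot_of_perfect hQp (D.subgroupOf Q) (by
    intro x hx
    have h7 : (x : X) ∈ ⁅D, Q⁆ := hDQ' (Subgroup.mem_subgroupOf.mp hx)
    have h8 : ⁅D.subgroupOf Q, (⊤ : Subgroup Q)⁆.map Q.subtype = ⁅D, Q⁆ := by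
      rw [Subgroup.map_commutator, Subgroup.subgroupOf_map_subtype, inf_of_le_left hDQ]
      congr 1
      rw [← MonoidHom.range_eq_map, Subgroup.range_subtype]
    rw [← h8] at h7
    obtain ⟨y, hy, hxy⟩ := h7
    have : y = x := Subtype.ext hxy
    rwa [← this])
  apply hDne
  rw [eq_bot_iff]
  intro d hd
  have h7 : (⟨d, hDQ hd⟩ : Q) ∈ D.subgroupOf Q := Subgroup.mem_subgroupOf.mpr hd
  rw [h6, Subgroup.mem_bot] at h7
  rw [Subgroup.mem_bot]
  exact congrArg Subtype.val h7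

end Pool.Agent.Q7.NR
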