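import Mathlib
import Pool.Agent.TH444.TW.ClsDef
import Pool.Agent.Q7.NR.Ex

/-!
# Nilpotent residuals
-/

set_option autoImplicit false
set_option linter.unusedSectionVars false

namespace Pool.Agent.Q7.NR

open Subgroup
open scoped commutatorElement
open Pool.Agent.TH444.TW (Cls)

/-- trivial kernel -/
lemma cls_of_bij {K : Type} [Field K] {W W' : Type} [Group W] [Group W'] (p : W' →* W)
    (hs : Function.Surjective p) (hk : p.ker = ⊥) : Cls K p := by
  let e := MulEquiv.ofBijective p ⟨(MonoidHom.ker_eq_bot_iff p).mp hk, hs⟩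
  have h1 : ∀ x, p x = 1 → x = 1 := by
    intro x hx
    have : x ∈ p.ker := hx
    rw [hk, Subgroup.mem_bot] at this
    exact this
  refine Cls.abelian p e.symm.toMonoidHom (fun w => e.apply_symm_apply w) ?_ ?_
  · rw [hk]; infer_instance
  · intro x y hx hy
    rw [h1 x hx, h1 y hy]

/-- a complemented abelian kernel -/
lemma cls_compl {K : Type} [Field K] {X : Type} [Group X] [Finite X] (M H : Subgroup X)
    [hMn : M.Normal] (hM : ∀ a ∈ M, ∀ b ∈ M, a * b = b * a) (h1 : M ⊓ H = ⊥) (h2 : M ⊔ H = ⊤) :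
    Cls K (QuotientGroup.mk' M) := by
  let c : H →* X ⧸ M := (QuotientGroup.mk' M).comp H.subtype
  have hc : Function.Bijective c := by
    constructor
    · rw [injective_iff_map_eq_one]
      intro h hh
      have h3 : (h : X) ∈ M ⊓ H := ⟨(QuotientGroup.eq_one_iff (h : X)).mp hh, h.2⟩
      rw [h1, Subgroup.mem_bot] at h3
      exact Subtype.ext h3
    · intro y
      induction y using QuotientGroup.induction_on with
      | H x =>
        have h3 : x ∈ M ⊔ H := by rw [h2]; exact Subgroup.mem_top x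
        obtain ⟨m, hm, h, hh, rfl⟩ := Subgroup.mem_sup_of_normal_left.mp h3
        refine ⟨⟨h, hh⟩, ?_⟩
        change QuotientGroup.mk' M h = QuotientGroup.mk' M (m * h)
        rw [map_mul, show QuotientGroup.mk' M m = 1 from (QuotientGroup.eq_one_iff m).mpr hm, one_mul]
  let e := MulEquiv.ofBijective c hc
  have hker : ∀ x : X, QuotientGroup.mk' M x = 1 → x ∈ M := fun x hx =>
    (QuotientGroup.eq_one_iff x).mp hx
  refine Cls.abelian (QuotientGroup.mk' M) (H.subtype.comp e.symm.toMonoidHom) ?_ inferInstance ?_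
  · intro w
    exact e.apply_symm_apply w
  · intro x y hx hy
    exact hM x (hker x hx) y (hker y hy)

lemma PN.map {X Y : Type} [Group X] [Group Y] {S A : Subgroup X} (f : X →* Y) (hf : f.ker ≤ A)
    (h : PN S A) : PN (S.map f) (A.map f) := by
  have key : ∀ x : X, f x ∈ A.map f → x ∈ A := by
    rintro x ⟨a, ha, hax⟩
    have h1 : a⁻¹ * x ∈ f.ker := by
      rw [MonoidHom.mem_ker, map_mul, map_inv, hax, inv_mul_cancel]
    have h2 := A.mul_mem ha (hf h1)
    rwa [mul_inv_cancel_left] at h2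
  rintro l hl _ ⟨s, hs, rfl⟩ _ ⟨t, ht, rfl⟩ ⟨k, hk⟩ ⟨j, hj⟩
  rw [← map_pow] at hk hj
  obtain ⟨i, hi⟩ := h l hl s hs t ht ⟨k, key _ hk⟩ ⟨j, key _ hj⟩
  refine ⟨i, ?_⟩
  rw [← map_mul, ← map_pow]
  exact Subgroup.mem_map_of_mem f hi

/-- the induced map on a quotient by a smaller normal subgroup -/
lemma exists_quot {X W : Type} [Group X] [Group W] (p : X →* W) (hp : Function.Surjective p)
    (M : Subgroup X) [M.Normal] (hM : M ≤ p.ker) :
    ∃ p' : X ⧸ M →* W, Function.Surjective p' ∧ p'.ker = p.ker.map (QuotientGroup.mk' M) ∧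
      p = p'.comp (QuotientGroup.mk' M) := by
  refine ⟨QuotientGroup.lift M p hM, ?_, ?_, ?_⟩
  · intro w
    obtain ⟨x, rfl⟩ := hp w
    exact ⟨QuotientGroup.mk' M x, rfl⟩
  · ext y
    induction y using QuotientGroup.induction_on with
    | H x =>
      constructor
      · intro h
        exact ⟨x, h, rfl⟩
      · rintro ⟨z, hz, hzx⟩
        change QuotientGroup.lift M p hM (x : X ⧸ M) = 1
        rw [← hzx]
        exact hz
  · ext x
    rfl

theorem cls_ab (K : Type) [Field K] : ∀ (n : ℕ) (X : Type) [Group X] [Finite X] (S A : Subgroup X)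
    [S.Normal] [A.Normal], Nat.card A = n → (∀ a ∈ A, ∀ b ∈ A, a * b = b * a) → A ≤ S →
    A ≤ ⁅A, S⁆ → PN S A → ∀ (W : Type) [Group W] (p : X →* W), Function.Surjective p →
    p.ker = A → Cls K p := by
  intro n
  induction n using Nat.strong_induction_on with
  | _ n ih =>
  intro X _ _ S A hSn hAn hn hA hAS hperf hPN W _ p hp hpk
  by_cases hne : A = ⊥
  · exact cls_of_bij p hp (hpk.trans hne)
  obtain ⟨q, hq, hM⟩ := exists_prime A S hA hAS hperf hPN hne
  have := Fact.mk hq
  have i1 : (pr A hA q).Normal := pr_normal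
  have i2 : (tq S A hPN q hq).Normal := tq_normal
  have hBA : pr A hA q ≤ A := fun x hx => hx.1
  obtain ⟨H, h1, h2⟩ := split_step A (tq S A hPN q hq) (pr A hA q) hA
    (fun a ha => ⟨hAS ha, 0, by simpa using ha⟩) (fun t ht => ht.2) hBA (pr_coprime hq)
    (fun a ha => pr_decomp hq ha)
  set M : Subgroup X := ⁅pr A hA q, tq S A hPN q hq⁆ with hMdef
  have hMA : M ≤ A := (Subgroup.commutator_le_left _ _).trans hBA
  have hMc : ∀ a ∈ M, ∀ b ∈ M, a * b = b * a := fun a ha b hb => hA a (hMA ha) b (hMA hb)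
  obtain ⟨p', hp', hpk', hpp⟩ := exists_quot p hp M (by rw [hpk]; exact hMA)
  rw [hpp]
  have hker : (QuotientGroup.mk' M).ker = M := QuotientGroup.ker_mk' M
  have hsurj := QuotientGroup.mk'_surjective M
  refine Cls.comp p' (QuotientGroup.mk' M) ?_ (cls_compl M H hMc h1 h2)
  have i3 : (S.map (QuotientGroup.mk' M)).Normal := hSn.map _ hsurj
  have i4 : (A.map (QuotientGroup.mk' M)).Normal := hAn.map _ hsurj
  refine ih (Nat.card (A.map (QuotientGroup.mk' M))) ?_ (X ⧸ M) (S.map (QuotientGroup.mk' M))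
    (A.map (QuotientGroup.mk' M)) rfl ?_ (Subgroup.map_mono hAS) ?_
    (hPN.map _ (by rw [hker]; exact hMA)) W p' hp' (by rw [hpk', hpk])
  · -- smaller order
    rw [← hn]
    have h3 : Nat.card (A.map (QuotientGroup.mk' M)) * Nat.card (M.subgroupOf A) = Nat.card A := by
      have h4 : Nat.card (A.map (QuotientGroup.mk' M))
          = Nat.card (A ⧸ M.subgroupOf A) := by
        have h5 : ((QuotientGroup.mk' M).comp A.subtype).ker = M.subgroupOf A := by
          ext x
          rw [MonoidHom.mem_ker, Subgroup.mem_subgroupOf]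
          exact QuotientGroup.eq_one_iff (x : X)
        have h6 := Nat.card_congr
          (QuotientGroup.quotientKerEquivRange ((QuotientGroup.mk' M).comp A.subtype)).toEquiv
        have h7 : ((QuotientGroup.mk' M).comp A.subtype).range = A.map (QuotientGroup.mk' M) := by
          rw [MonoidHom.range_comp, Subgroup.range_subtype]
        rw [h7] at h6
        rw [← h6]
        congr 1
        rw [h5]
      rw [h4]
      exact (Subgroup.card_eq_card_quotient_mul_card_subgroup (M.subgroupOf A)).symm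
    have h4 : 1 < Nat.card (M.subgroupOf A) := by
      rw [Nat.card_congr (Subgroup.subgroupOfEquivOfLe hMA).toEquiv]
      have : Nontrivial M := (Subgroup.nontrivial_iff_ne_bot M).mpr hM
      exact Finite.one_lt_card
    have h5 : 0 < Nat.card (A.map (QuotientGroup.mk' M)) := Nat.card_pos
    nlinarith
  · rintro _ ⟨a, ha, rfl⟩ _ ⟨b, hb, rfl⟩
    rw [← map_mul, ← map_mul, hA a ha b hb]
  · rw [← Subgroup.map_commutator]
    exact Subgroup.map_mono hperf

/-- the nilpotent residual of a subgroup: the intersection of its lower central series -/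
def nres {X : Type} [Group X] (S : Subgroup X) : Subgroup X := ⨅ n : ℕ, S.lowerCentralSeries n

section nres

variable {X : Type} [Group X] [Finite X]

lemma nres_eq (S : Subgroup X) : ∃ N : ℕ, ∀ m ≥ N, S.lowerCentralSeries m = nres S := by
  classical
  obtain ⟨N, hN⟩ : ∃ N : ℕ, ∀ m, Nat.card (S.lowerCentralSeries N) ≤
      Nat.card (S.lowerCentralSeries m) := by
    have hne : (Set.range fun m => Nat.card (S.lowerCentralSeries m)).Nonempty := ⟨_, 0, rfl⟩
    obtain ⟨N, hN⟩ := Nat.sInf_mem hne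
    refine ⟨N, fun m => ?_⟩
    have h1 : Nat.card (S.lowerCentralSeries N) = sInf (Set.range fun m => Nat.card (S.lowerCentralSeries m)) := hN
    rw [h1]
    exact Nat.sInf_le ⟨m, rfl⟩
  have h1 : ∀ m ≥ N, S.lowerCentralSeries m = S.lowerCentralSeries N := fun m hm =>
    Subgroup.eq_of_le_of_card_ge (S.lowerCentralSeries_antitone hm) (hN m)
  have h2 : nres S = S.lowerCentralSeries N := by
    apply le_antisymm (iInf_le _ N)
    refine le_iInf fun m => ?_
    rcases le_total N m with h | h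
    · rw [h1 m h]
    · exact S.lowerCentralSeries_antitone h
  exact ⟨N, fun m hm => (h1 m hm).trans h2.symm⟩

lemma nres_le (S : Subgroup X) : nres S ≤ S := iInf_le _ 0

lemma nres_normal (S : Subgroup X) [S.Normal] : (nres S).Normal :=
  Subgroup.normal_iInf_normal fun _ => inferInstance

lemma nres_comm (S : Subgroup X) : nres S ≤ ⁅nres S, S⁆ := by
  obtain ⟨N, hN⟩ := nres_eq S
  have h1 := hN (N + 1) (Nat.le_succ N)
  rw [Subgroup.lowerCentralSeries_succ, hN N le_rfl] at h1
  exact h1.ge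

lemma nres_map {Y : Type} [Group Y] [Finite Y] (f : X →* Y) (S : Subgroup X) :
    (nres S).map f = nres (S.map f) := by
  obtain ⟨N, hN⟩ := nres_eq S
  obtain ⟨M, hM⟩ := nres_eq (S.map f)
  rw [← hN (max N M) (le_max_left _ _), ← hM (max N M) (le_max_right _ _),
    Subgroup.map_lowerCentralSeries]

/-- in a finite nilpotent group the elements of `l`-power order form a subgroup -/
lemma nilp_mul {Y : Type} [Group Y] [Finite Y] (hY : Group.IsNilpotent Y) {l : ℕ} (hl : l.Prime)
    {x y : Y} (hx : ∃ k : ℕ, x ^ l ^ k = 1) (hy : ∃ k : ℕ, y ^ l ^ k = 1) :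
    ∃ k : ℕ, (x * y) ^ l ^ k = 1 := by
  have := Fact.mk hl
  let P : Sylow l Y := default
  have hPn : (P : Subgroup Y).Normal :=
    (Group.isNilpotent_of_finite_tfae.out 0 3 rfl rfl).mp hY l inferInstance P
  have key : ∀ z : Y, (∃ k : ℕ, z ^ l ^ k = 1) → z ∈ P := by
    rintro z ⟨k, hk⟩
    have h1 : IsPGroup l (Subgroup.zpowers z) := by
      rintro ⟨_, j, rfl⟩
      refine ⟨k, Subtype.ext ?_⟩
      change (z ^ j) ^ l ^ k = 1
      rw [← zpow_natCast, ← zpow_mul, mul_comm, zpow_mul, zpow_natCast, hk, one_zpow]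
    have h2 : IsPGroup l (Subgroup.zpowers z ⊔ (P : Subgroup Y) : Subgroup Y) :=
      h1.to_sup_of_normal_right P.isPGroup'
    have h3 := P.is_maximal' h2 le_sup_right
    have h4 : z ∈ (P : Subgroup Y) := by
      rw [← h3]
      exact (le_sup_left : _ ≤ Subgroup.zpowers z ⊔ (P : Subgroup Y)) (Subgroup.mem_zpowers z)
    exact h4
  obtain ⟨k, hk⟩ := P.isPGroup' ⟨x * y, (P : Subgroup Y).mul_mem (key x hx) (key y hy)⟩
  exact ⟨k, congrArg Subtype.val hk⟩

lemma nres_PN (S : Subgroup X) [hS : S.Normal] : PN S (nres S) := by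
  have hn := nres_normal S
  obtain ⟨N, hN⟩ := nres_eq S
  let f := QuotientGroup.mk' (nres S)
  have h1 : Group.IsNilpotent (S.map f) := by
    rw [Subgroup.isNilpotent_iff_lowerCentralSeries]
    refine ⟨N, ?_⟩
    rw [← Subgroup.map_lowerCentralSeries, hN N le_rfl]
    exact (Subgroup.map_eq_bot_iff _).mpr (QuotientGroup.ker_mk' _).ge
  have key : ∀ x : X, f x = 1 → x ∈ nres S := fun x hx => (QuotientGroup.eq_one_iff x).mp hx
  have key' : ∀ x : X, x ∈ nres S → f x = 1 := fun x hx => (QuotientGroup.eq_one_iff x).mpr hx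
  rintro l hl s hs t ht ⟨k, hk⟩ ⟨j, hj⟩
  obtain ⟨i, hi⟩ := nilp_mul h1 hl (x := ⟨f s, Subgroup.mem_map_of_mem f hs⟩)
    (y := ⟨f t, Subgroup.mem_map_of_mem f ht⟩)
    ⟨k, Subtype.ext (by change (f s) ^ l ^ k = 1; rw [← map_pow]; exact key' _ hk)⟩
    ⟨j, Subtype.ext (by change (f t) ^ l ^ j = 1; rw [← map_pow]; exact key' _ hj)⟩
  refine ⟨i, key _ ?_⟩
  rw [map_pow, map_mul]
  exact congrArg Subtype.val hi

end nres

/-- the series of the iterated nilpotent residuals -/
def ser {X : Type} [Group X] (S : Subgroup X) : ℕ → Subgroup X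
  | 0 => S
  | i + 1 => nres (ser S i)

lemma ser_normal {X : Type} [Group X] [Finite X] (S : Subgroup X) [hS : S.Normal] :
    ∀ i, (ser S i).Normal
  | 0 => hS
  | i + 1 => by
    have := ser_normal S i
    exact nres_normal (ser S i)

lemma ser_antitone {X : Type} [Group X] [Finite X] (S : Subgroup X) : Antitone (ser S) :=
  antitone_nat_of_succ_le fun i => nres_le (ser S i)

lemma ser_map {X Y : Type} [Group X] [Finite X] [Group Y] [Finite Y] (f : X →* Y)
    (S : Subgroup X) : ∀ i, (ser S i).map f = ser (S.map f) i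
  | 0 => rfl
  | i + 1 => by
    change (nres (ser S i)).map f = nres (ser (S.map f) i)
    rw [nres_map, ser_map f S i]

theorem cls_ser (K : Type) [Field K] : ∀ (k : ℕ) (X : Type) [Group X] [Finite X] (S : Subgroup X)
    [S.Normal], ser S (k + 1) = ⊥ →
    (∀ i, 1 ≤ i → ⁅ser S i, ser S i⁆ ≤ ser S (i + 1)) →
    ∀ (W : Type) [Group W] (p : X →* W), Function.Surjective p → p.ker = ser S 1 → Cls K p := by
  intro k
  induction k with
  | zero =>
    intro X _ _ S _ h1 _ W _ p hp hpk
    exact cls_of_bij p hp (hpk.trans h1)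
  | succ k ih =>
    intro X _ _ S hS h1 h2 W _ p hp hpk
    have i1 : ∀ i, (ser S i).Normal := ser_normal S
    let A := ser S (k + 1)
    have hAc : ∀ a ∈ A, ∀ b ∈ A, a * b = b * a := by
      intro a ha b hb
      have h3 := h2 (k + 1) (Nat.le_add_left 1 k) (Subgroup.commutator_mem_commutator ha hb)
      rw [h1, Subgroup.mem_bot, commutatorElement_eq_one_iff_mul_comm] at h3
      exact h3
    have hA1 : A ≤ ser S 1 := ser_antitone S (Nat.le_add_left 1 k)
    obtain ⟨p', hp', hpk', hpp⟩ := exists_quot p hp A (by rw [hpk]; exact hA1)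
    rw [hpp]
    have hsurj := QuotientGroup.mk'_surjective A
    have i3 : (S.map (QuotientGroup.mk' A)).Normal := hS.map _ hsurj
    refine Cls.comp p' (QuotientGroup.mk' A) ?_ ?_
    · refine ih (X ⧸ A) (S.map (QuotientGroup.mk' A)) ?_ ?_ W p' hp' ?_
      · rw [← ser_map]
        exact (Subgroup.map_eq_bot_iff _).mpr (QuotientGroup.ker_mk' _).ge
      · intro i hi
        rw [← ser_map, ← ser_map, ← Subgroup.map_commutator]
        exact Subgroup.map_mono (h2 i hi)
      · rw [hpk', hpk, ser_map]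
    · exact cls_ab K _ X (ser S k) A rfl hAc (nres_le _) (nres_comm _) (nres_PN _) (X ⧸ A)
        (QuotientGroup.mk' A) hsurj (QuotientGroup.ker_mk' A)

end Pool.Agent.Q7.NR
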