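import Mathlib
import Pool.Agent.Q7.NR.Main

/-!
# Abelian Sylow subgroups
-/

set_option autoImplicit false

namespace Pool.Agent.Q7.NR

open Subgroup
open scoped commutatorElement

lemma comm_of_nilp_ab {Y : Type} [Group Y] [Finite Y] (hY : Group.IsNilpotent Y)
    (h : ∀ (p : ℕ) [Fact p.Prime] (P : Sylow p Y), ∀ x ∈ P, ∀ y ∈ P, x * y = y * x) (x y : Y) :
    x * y = y * x := by
  obtain ⟨e⟩ := (Group.isNilpotent_of_finite_tfae.out 0 4 rfl rfl).mp hY
  have key : e.symm x * e.symm y = e.symm y * e.symm x := by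
    funext p P
    have := Fact.mk (Nat.prime_of_mem_primeFactors p.2)
    apply Subtype.ext
    exact h p.1 P _ (e.symm x p P).2 _ (e.symm y p P).2
  rw [← map_mul, ← map_mul] at key
  exact e.symm.injective key

lemma nres_of_syl {X : Type} [Group X] [Finite X] (S : Subgroup X) [S.Normal]
    (h : ∀ (p : ℕ) (P : Subgroup X), p.Prime → P ≤ S → IsPGroup p P →
      ∀ x ∈ P, ∀ y ∈ P, x * y = y * x) : nres S = ⁅S, S⁆ := by
  have hn := nres_normal S
  obtain ⟨N, hN⟩ := nres_eq S
  apply le_antisymm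
  · have h1 : nres S ≤ S.lowerCentralSeries 1 := iInf_le _ 1
    rwa [Subgroup.lowerCentralSeries_succ, Subgroup.lowerCentralSeries_zero] at h1
  let f := QuotientGroup.mk' (nres S)
  have h1 : Group.IsNilpotent (S.map f) := by
    rw [Subgroup.isNilpotent_iff_lowerCentralSeries]
    refine ⟨N, ?_⟩
    rw [← Subgroup.map_lowerCentralSeries, hN N le_rfl]
    exact (Subgroup.map_eq_bot_iff _).mpr (QuotientGroup.ker_mk' _).ge
  have h2 : ∀ (p : ℕ) [Fact p.Prime] (P : Sylow p (S.map f)), ∀ x ∈ P, ∀ y ∈ P,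
      x * y = y * x := by
    intro p hp P x hx y hy
    let g : S →* S.map f := f.subgroupMap S
    have hg : Function.Surjective g := f.subgroupMap_surjective S
    obtain ⟨Q, hQ⟩ := Sylow.mapSurjective_surjective hg p P
    have hQ' : ∀ z, z ∈ P → ∃ w ∈ Q, g w = z := by
      intro z hz
      rw [← hQ] at hz
      exact hz
    obtain ⟨a, ha, rfl⟩ := hQ' x hx
    obtain ⟨b, hb, rfl⟩ := hQ' y hy
    have h3 := h p ((Q : Subgroup S).map S.subtype) hp.out (Subgroup.map_subtype_le _)
      (Q.isPGroup'.map S.subtype) a ⟨a, ha, rfl⟩ b ⟨b, hb, rfl⟩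
    rw [← map_mul, ← map_mul]
    congr 1
    exact Subtype.ext h3
  rw [Subgroup.commutator_le]
  intro s hs t ht
  have h3 := comm_of_nilp_ab h1 h2 ⟨f s, Subgroup.mem_map_of_mem f hs⟩
    ⟨f t, Subgroup.mem_map_of_mem f ht⟩
  have h4 : f s * f t = f t * f s := congrArg Subtype.val h3
  have h5 : f ⁅s, t⁆ = 1 := by
    rw [map_commutatorElement, commutatorElement_eq_one_iff_mul_comm]
    exact h4
  exact (QuotientGroup.eq_one_iff _).mp h5

/-- for groups with abelian Sylow subgroups the series is the derived series -/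
lemma ser_of_syl {X : Type} [Group X] [Finite X] (N : Subgroup X) [hN : N.Normal]
    (h : ∀ (p : ℕ) (P : Subgroup X), p.Prime → P ≤ N → IsPGroup p P →
      ∀ x ∈ P, ∀ y ∈ P, x * y = y * x) :
    ∀ i, ser N i = (derivedSeries N i).map N.subtype
  | 0 => by
    change N = (⊤ : Subgroup N).map N.subtype
    rw [← MonoidHom.range_eq_map, Subgroup.range_subtype]
  | i + 1 => by
    have := ser_normal N i
    change nres (ser N i) = _
    rw [nres_of_syl (ser N i) (fun p P hp hP => h p P hp (hP.trans (ser_antitone N (Nat.zero_le i)))),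
      ser_of_syl N h i, derivedSeries_succ, Subgroup.map_commutator]

end Pool.Agent.Q7.NR
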