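import Mathlib
import Pool.Agent.TH444.TW.Fin
import Pool.Agent.Q7.NR.Syl

/-!
# One step over Hilbertian fields and over `K(t)`
-/

set_option autoImplicit false

namespace Pool.Agent.Q7.NR

open Pool.Agent.TH444.TW (Cls cls_hilb cls_regular)
open Pool.Agent.H391R2.T4 (HilbField)
open Pool.Agent.TH15.IGP (Lim)

section tower

variable {Q X : Type} [Group Q] [Group X]

/-- the groups `Q, X, X, ...` -/
def Tw (Q X : Type) : ℕ → Type
  | 0 => Q
  | _ + 1 => X

instance instTw : ∀ i, Group (Tw Q X i)
  | 0 => inferInstanceAs (Group Q)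
  | _ + 1 => inferInstanceAs (Group X)

/-- the maps `X → Q` and the identities -/
def tw (p : X →* Q) : ∀ i, Tw Q X (i + 1) →* Tw Q X i
  | 0 => p
  | _ + 1 => MonoidHom.id X

lemma tw_cls {K : Type} [Field K] {p : X →* Q} (hp : Cls K p) : ∀ i, Cls K (tw p i)
  | 0 => hp
  | _ + 1 => cls_of_bij (MonoidHom.id X) Function.surjective_id
      ((MonoidHom.ker_eq_bot_iff _).mpr Function.injective_id)

/-- the inverse limit is `X` -/
lemma exists_limEquiv (p : X →* Q) : ∃ e : Lim (tw p) ≃* X, ∀ x, e x = x.1 1 := by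
  let f : Lim (tw p) →* X :=
    { toFun := fun x => x.1 1
      map_one' := rfl
      map_mul' := fun _ _ => rfl }
  have hf : Function.Bijective f := by
    constructor
    · intro x y hxy
      have key : ∀ i, x.1 (i + 1) = y.1 (i + 1) := by
        intro i
        induction i with
        | zero => exact hxy
        | succ i ih =>
          have h1 : x.1 (i + 2) = x.1 (i + 1) := x.2 (i + 1)
          have h2 : y.1 (i + 2) = y.1 (i + 1) := y.2 (i + 1)
          exact h1.symm ▸ h2.symm ▸ ih
      apply Subtype.ext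
      funext i
      cases i with
      | zero =>
        rw [← x.2 0, ← y.2 0]
        exact congrArg (tw p 0) hxy
      | succ i => exact key i
    · intro z
      let s : ∀ i, Tw Q X i := fun i => match i with
        | 0 => p z
        | _ + 1 => z
      refine ⟨⟨s, ?_⟩, rfl⟩
      intro i
      cases i with
      | zero => rfl
      | succ i => rfl
  exact ⟨MulEquiv.ofBijective f hf, fun _ => rfl⟩

end tower

lemma finDim_of_open {K F : Type} [Field K] [Field F] [Algebra K F] [IsGalois K F]
    (h : IsOpen ({1} : Set (F ≃ₐ[K] F))) : FiniteDimensional K F := by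
  have h1 : FiniteDimensional K (⊤ : IntermediateField K F) := by
    rw [← InfiniteGalois.isOpen_iff_finite]
    convert h using 1
    ext σ
    constructor
    · intro hσ
      have h2 : σ ∈ (⊤ : IntermediateField K F).fixingSubgroup := hσ
      rw [IntermediateField.fixingSubgroup_top] at h2
      exact h2
    · intro hσ
      have h2 : σ ∈ (⊤ : IntermediateField K F).fixingSubgroup := by
        rw [IntermediateField.fixingSubgroup_top]
        exact hσ
      exact h2
  exact IntermediateField.topEquiv.toLinearEquiv.finiteDimensional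

theorem hilb_step {K : Type} [Field K] (hK : HilbField K) {Q X : Type} [Group Q] [Group X]
    (p : X →* Q) (hp : Cls K p) (L : Type) [Field L] [Algebra K L] [FiniteDimensional K L]
    [IsGalois K L] (e₀ : Q ≃* (L ≃ₐ[K] L)) :
    ∃ (F : Type) (_ : Field F) (_ : Algebra K F) (_ : Algebra L F) (_ : IsScalarTower K L F)
      (_ : FiniteDimensional K F) (_ : IsGalois K F) (γ : (F ≃ₐ[K] F) ≃* X),
      ∀ (σ : F ≃ₐ[K] F) (x : L),
        σ (algebraMap L F x) = algebraMap L F (e₀ (p (γ σ)) x) := by
  obtain ⟨F, h1, h2, h3, h4, h5, γ, h6, h7⟩ := cls_hilb hK (Tw Q X) (tw p) (tw_cls hp) L e₀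
  obtain ⟨e, he⟩ := exists_limEquiv p
  refine ⟨F, h1, h2, h3, h4, ?_, h5, γ.trans e, ?_⟩
  · apply finDim_of_open
    have h8 := h6 1
    convert h8 using 1
    ext σ
    rw [Set.mem_singleton_iff, Set.mem_ofPred_eq]
    constructor
    · rintro rfl
      rw [map_one]
      rfl
    · intro h
      have h9 : e (γ σ) = e 1 := by
        rw [he, he]
        exact h
      exact γ.injective ((e.injective h9).trans (map_one γ).symm)
  · intro σ x
    rw [h7 σ x]
    congr 3
    rw [← (γ σ).2 0]
    change p _ = p (e (γ σ))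
    rw [he]

theorem regular_step (K L : Type) [Field K] [Field L] [Algebra K L] [FiniteDimensional K L]
    [IsGalois K L] {Q X : Type} [Group Q] [Group X]
    (p : X →* Q) (hp : Cls K p) (e₀ : Q ≃* (L ≃ₐ[K] L)) :
    ∃ (F : Type) (_ : Field F) (_ : Algebra (RatFunc K) F) (_ : Algebra L F)
      (_ : Algebra K F) (_ : IsScalarTower K (RatFunc K) F) (_ : IsScalarTower K L F)
      (_ : FiniteDimensional (RatFunc K) F) (_ : IsGalois (RatFunc K) F)
      (γ : (F ≃ₐ[RatFunc K] F) ≃* X),
      (∀ (σ : F ≃ₐ[RatFunc K] F) (x : L),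
        σ (algebraMap L F x) = algebraMap L F (e₀ (p (γ σ)) x)) ∧
      ∀ y : F, IsAlgebraic L y → y ∈ Set.range (algebraMap L F) := by
  obtain ⟨F, h1, h2, h3, h3', h4, h4', h5, γ, h6, h7, h8⟩ :=
    cls_regular K L (Tw Q X) (tw p) (tw_cls hp) e₀
  obtain ⟨e, he⟩ := exists_limEquiv p
  refine ⟨F, h1, h2, h3, h3', h4, h4', ?_, h5, γ.trans e, ?_, h8⟩
  · apply finDim_of_open
    have h8 := h6 1
    convert h8 using 1
    ext σ
    rw [Set.mem_singleton_iff, Set.mem_ofPred_eq]
    constructor
    · rintro rfl
      rw [map_one]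
      rfl
    · intro h
      have h9 : e (γ σ) = e 1 := by
        rw [he, he]
        exact h
      exact γ.injective ((e.injective h9).trans (map_one γ).symm)
  · intro σ x
    rw [h7 σ x]
    congr 3
    rw [← (γ σ).2 0]
    change p _ = p (e (γ σ))
    rw [he]

end Pool.Agent.Q7.NR
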